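import Mathlib

/-!
# MP_9149b8_co: the optimal coherence decreases strictly with the dimension
-/

set_option autoImplicit false

open scoped RealInnerProductSpace

namespace Pool.Agent.Results.MP_9149b8_co.StrictCoherence

/-- The worst-case coherence `max_{i ≠ j} |⟨f_i, f_j⟩|` of a sequence of vectors. -/
noncomputable def coherence {N M : ℕ} (F : Fin N → EuclideanSpace ℝ (Fin M)) : ℝ :=
  ⨆ p : {p : Fin N × Fin N // p.1 ≠ p.2}, |⟪F p.1.1, F p.1.2⟫|

/-- The optimal coherence `μ(N, M)`: the infimum of the coherences of the sequences of `N` unit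
vectors of `ℝ^M`. -/
noncomputable def optCoherence (N M : ℕ) : ℝ :=
  sInf {c : ℝ | ∃ F : Fin N → EuclideanSpace ℝ (Fin M), (∀ i, ‖F i‖ = 1) ∧ c = coherence F}

lemma le_coherence {N M : ℕ} (F : Fin N → EuclideanSpace ℝ (Fin M)) {i j : Fin N} (h : i ≠ j) :
    |⟪F i, F j⟫| ≤ coherence F :=
  le_ciSup (f := fun p : {p : Fin N × Fin N // p.1 ≠ p.2} => |⟪F p.1.1, F p.1.2⟫|)
    (Set.finite_range _).bddAbove ⟨(i, j), h⟩

lemma exists_eq_coherence {N M : ℕ} (hN : 2 ≤ N) (F : Fin N → EuclideanSpace ℝ (Fin M)) :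
    ∃ i j : Fin N, i ≠ j ∧ coherence F = |⟪F i, F j⟫| := by
  have : Nonempty {p : Fin N × Fin N // p.1 ≠ p.2} :=
    ⟨⟨(⟨0, by omega⟩, ⟨1, by omega⟩), by simp⟩⟩
  obtain ⟨p, hp⟩ := exists_eq_ciSup_of_finite
    (f := fun p : {p : Fin N × Fin N // p.1 ≠ p.2} => |⟪F p.1.1, F p.1.2⟫|)
  exact ⟨p.1.1, p.1.2, p.2, hp.symm⟩

lemma coherence_nonneg {N M : ℕ} (F : Fin N → EuclideanSpace ℝ (Fin M)) : 0 ≤ coherence F :=
  Real.iSup_nonneg fun _ => abs_nonneg _

lemma continuous_coherence {N M : ℕ} (hN : 2 ≤ N) :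
    Continuous (coherence : (Fin N → EuclideanSpace ℝ (Fin M)) → ℝ) := by
  have : Nonempty {p : Fin N × Fin N // p.1 ≠ p.2} :=
    ⟨⟨(⟨0, by omega⟩, ⟨1, by omega⟩), by simp⟩⟩
  have h : (coherence : (Fin N → EuclideanSpace ℝ (Fin M)) → ℝ) = fun F =>
      Finset.univ.sup' Finset.univ_nonempty
        (fun p : {p : Fin N × Fin N // p.1 ≠ p.2} => |⟪F p.1.1, F p.1.2⟫|) := by
    funext F
    rw [Finset.sup'_univ_eq_ciSup]
    rfl
  rw [h]
  refine Continuous.finset_sup'_apply _ fun p _ => ?_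
  fun_prop

/-- The minimum is attained. -/
lemma exists_min {N M : ℕ} (hN : 2 ≤ N) (hM : 1 ≤ M) :
    ∃ F : Fin N → EuclideanSpace ℝ (Fin M), (∀ i, ‖F i‖ = 1) ∧ coherence F = optCoherence N M := by
  have hc : IsCompact (Set.pi Set.univ
      (fun _ : Fin N => Metric.sphere (0 : EuclideanSpace ℝ (Fin M)) 1)) :=
    isCompact_univ_pi fun _ => isCompact_sphere _ _
  have hne : (Set.pi Set.univ
      (fun _ : Fin N => Metric.sphere (0 : EuclideanSpace ℝ (Fin M)) 1)).Nonempty := by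
    refine ⟨fun _ => EuclideanSpace.single ⟨0, hM⟩ 1, fun _ _ => ?_⟩
    simp
  obtain ⟨F, hF, hmin⟩ := hc.exists_isMinOn hne (continuous_coherence hN).continuousOn
  refine ⟨F, fun i => by simpa using hF i (Set.mem_univ i), ?_⟩
  have hleast : IsLeast {c : ℝ | ∃ F : Fin N → EuclideanSpace ℝ (Fin M),
      (∀ i, ‖F i‖ = 1) ∧ c = coherence F} (coherence F) := by
    refine ⟨⟨F, fun i => by simpa using hF i (Set.mem_univ i), rfl⟩, ?_⟩
    rintro c ⟨G, hG, rfl⟩
    exact hmin (fun i _ => by simpa using hG i)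
  exact hleast.csInf_eq.symm

lemma opt_le {N M : ℕ} {F : Fin N → EuclideanSpace ℝ (Fin M)} (hF : ∀ i, ‖F i‖ = 1) :
    optCoherence N M ≤ coherence F :=
  csInf_le ⟨0, by rintro c ⟨G, -, rfl⟩; exact coherence_nonneg G⟩ ⟨F, hF, rfl⟩

/-- `N > M` unit vectors of `ℝ^M` have positive coherence. -/
lemma coherence_pos {N M : ℕ} (hMN : M < N) {F : Fin N → EuclideanSpace ℝ (Fin M)}
    (hF : ∀ i, ‖F i‖ = 1) : 0 < coherence F := by
  by_contra hcon
  have h0 : coherence F = 0 := le_antisymm (not_lt.mp hcon) (coherence_nonneg F)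
  have horth : Orthonormal ℝ F := by
    refine ⟨hF, fun i j hij => ?_⟩
    have := le_coherence F hij
    rw [h0] at this
    exact abs_eq_zero.mp (le_antisymm this (abs_nonneg _))
  have := horth.linearIndependent.fintype_card_le_finrank
  simp at this
  omega

/-- The vector `(√(1 - t²) x, t)`. -/
noncomputable def tilt {M : ℕ} (x : EuclideanSpace ℝ (Fin M)) (t : ℝ) :
    EuclideanSpace ℝ (Fin (M + 1)) :=
  WithLp.toLp 2 (Fin.snoc (fun k => √(1 - t ^ 2) * x k) t)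

lemma inner_tilt {M : ℕ} (x y : EuclideanSpace ℝ (Fin M)) (s t : ℝ) :
    ⟪tilt x s, tilt y t⟫ = √(1 - s ^ 2) * √(1 - t ^ 2) * ⟪x, y⟫ + s * t := by
  simp only [tilt, PiLp.inner_apply, Fin.sum_univ_castSucc, Fin.snoc_castSucc, Fin.snoc_last,
    RCLike.inner_apply, conj_trivial, Finset.mul_sum]
  congr 1
  · exact Finset.sum_congr rfl fun k _ => by ring
  · ring

theorem result :
    (∀ N M : ℕ, 2 ≤ N → 1 ≤ M → ∃ F : Fin N → EuclideanSpace ℝ (Fin M),
      (∀ i, ‖F i‖ = 1) ∧ coherence F = optCoherence N M) ∧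
    ∀ N M : ℕ, 2 ≤ N → 1 ≤ M → M ≤ N - 1 → optCoherence N (M + 1) < optCoherence N M := by
  refine ⟨fun N M hN hM => exists_min hN hM, fun N M hN hM hMN => ?_⟩
  obtain ⟨F, hF, hFμ⟩ := exists_min hN hM
  set μ : ℝ := optCoherence N M with hμ
  have hμ0 : 0 < μ := by rw [← hFμ]; exact coherence_pos (by omega) hF
  have hμ1 : μ ≤ 1 := by
    obtain ⟨i, j, -, h⟩ := exists_eq_coherence hN F
    rw [← hFμ, h]
    have := abs_real_inner_le_norm (F i) (F j)
    rwa [hF, hF, mul_one] at this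
  -- the tilts
  set t : Fin N → ℝ := fun i => (μ / 3) ^ ((i : ℕ) + 1) with ht
  have ht0 : ∀ i, 0 < t i := fun i => by simp only [ht]; positivity
  have ht1 : ∀ i, t i ≤ 1 / 3 := fun i => by
    simp only [ht]
    calc (μ / 3) ^ ((i : ℕ) + 1) ≤ (μ / 3) ^ 1 :=
          pow_le_pow_of_le_one (by positivity) (by linarith) (by omega)
      _ ≤ 1 / 3 := by rw [pow_one]; linarith
  have htij : ∀ i j : Fin N, i < j → t j ≤ μ / 3 * t i := fun i j hij => by
    simp only [ht]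
    rw [← pow_succ']
    exact pow_le_pow_of_le_one (by positivity) (by linarith) (by
      have : (i : ℕ) < j := hij
      omega)
  have hsqrt : ∀ i, √(1 - t i ^ 2) ≤ 1 - t i ^ 2 / 2 := fun i => by
    rw [Real.sqrt_le_left (by nlinarith [ht0 i, ht1 i])]
    nlinarith [sq_nonneg (t i ^ 2)]
  have hsqrt1 : ∀ i, √(1 - t i ^ 2) ≤ 1 := fun i => by
    have := hsqrt i
    nlinarith [sq_nonneg (t i)]
  set G : Fin N → EuclideanSpace ℝ (Fin (M + 1)) := fun i => tilt (F i) (t i) with hG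
  have hG1 : ∀ i, ‖G i‖ = 1 := fun i => by
    have h1 : ⟪G i, G i⟫ = 1 := by
      simp only [hG]
      rw [inner_tilt, real_inner_self_eq_norm_sq, hF, Real.mul_self_sqrt (by nlinarith [ht0 i, ht1 i])]
      ring
    rw [real_inner_self_eq_norm_sq] at h1
    nlinarith [norm_nonneg (G i)]
  -- strict decrease for every pair
  have key : ∀ i j : Fin N, i < j → |⟪G i, G j⟫| < μ := fun i j hij => by
    simp only [hG]
    rw [inner_tilt]
    have h1 : |⟪F i, F j⟫| ≤ μ := hFμ ▸ le_coherence F hij.ne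
    have h2 := Real.sqrt_nonneg (1 - t i ^ 2)
    have h3 := Real.sqrt_nonneg (1 - t j ^ 2)
    calc |√(1 - t i ^ 2) * √(1 - t j ^ 2) * ⟪F i, F j⟫ + t i * t j|
        ≤ |√(1 - t i ^ 2) * √(1 - t j ^ 2) * ⟪F i, F j⟫| + |t i * t j| := abs_add_le _ _
      _ = √(1 - t i ^ 2) * √(1 - t j ^ 2) * |⟪F i, F j⟫| + t i * t j := by
          rw [abs_mul, abs_of_nonneg (mul_nonneg h2 h3),
            abs_of_pos (mul_pos (ht0 i) (ht0 j))]
      _ ≤ (1 - t i ^ 2 / 2) * 1 * μ + t i * (μ / 3 * t i) := by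
          have h4 : √(1 - t i ^ 2) * √(1 - t j ^ 2) ≤ (1 - t i ^ 2 / 2) * 1 :=
            mul_le_mul (hsqrt i) (hsqrt1 j) h3 (by nlinarith [ht0 i, ht1 i])
          have h5 : √(1 - t i ^ 2) * √(1 - t j ^ 2) * |⟪F i, F j⟫| ≤ (1 - t i ^ 2 / 2) * 1 * μ :=
            mul_le_mul h4 h1 (abs_nonneg _) (by nlinarith [ht0 i, ht1 i])
          have h6 := mul_le_mul_of_nonneg_left (htij i j hij) (ht0 i).le
          linarith
      _ < μ := by nlinarith [mul_pos hμ0 (mul_pos (ht0 i) (ht0 i))]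
  have hlt : coherence G < μ := by
    obtain ⟨i, j, hij, h⟩ := exists_eq_coherence hN G
    rw [h]
    rcases lt_or_gt_of_ne hij with h' | h'
    · exact key i j h'
    · rw [real_inner_comm]
      exact key j i h'
  exact (opt_le hG1).trans_lt hlt

end Pool.Agent.Results.MP_9149b8_co.StrictCoherence
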